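import Pool.Agent.Lib.MP_b5021c_nt.IfaceE6

/-!
# Row E6_BCD: base change of rays, closings, mutual pairs, facet ports
-/

namespace Pool.Agent.B5.H09

open scoped LaurentPolynomial
open Polynomial
open Pool.Agent.MP_b5021c_nt (Eis nz)
open Pool.Agent.MP_b5021c_nt.Ire (bc)
open Pool.Agent.B5.H25.Bch

noncomputable section

variable {L : Type} [AddCommGroup L]

theorem bcU_val (e : (RO ℤ)ˣ) : ((bcU e : (RO Eis)ˣ) : RO Eis) = bcR e := rfl

theorem bcU_zpow (e : (RO ℤ)ˣ) (k : ℤ) : bcU e ^ k = bcU (e ^ k) := by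
  unfold bcU
  exact (map_zpow (Units.map (bcR : RO ℤ →* RO Eis)) e k).symm

theorem bc_coeff_eq (D : A L) :
    (bc D).coeff = Finsupp.mapRange bcR (map_zero bcR) D.coeff := by
  ext1 a
  rw [Finsupp.mapRange_apply]
  exact bc_co D a

theorem bcR_coeff_eq (q : RO ℤ) :
    (bcR q).coeff = Finsupp.mapRange (Int.castRingHom Eis) (map_zero _) q.coeff := by
  ext1 n
  rw [Finsupp.mapRange_apply]
  simp [bcR]

theorem vco_bc (e : (RO ℤ)ˣ) (S a : L) (D : A L) :
    vco (bcU e) S (bc D) a = bcR (vco e S D a) := by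
  unfold vco
  rw [bc_coeff_eq, Finsupp.sum_mapRange_index, map_finsuppSum]
  · apply Finsupp.sum_congr
    intro b _
    split_ifs with h
    · rw [map_mul, bcU_zpow]; rfl
    · rw [map_zero]
  · intro b
    split_ifs
    · rw [zero_mul]
    · rfl

theorem us_bc (e : (RO ℤ)ˣ) (S : L) (D : A L) : US (bcU e) S (bc D) = US e S D := by
  unfold US
  congr 3
  ext a
  change vco (bcU e) S (bc D) a ≠ 0 ↔ vco e S D a ≠ 0
  rw [vco_bc]
  exact map_ne_zero_iff bcR bcR_inj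

theorem ray_bc (D : A L) (S : L) : Ray (bc D) S ↔ Ray D S := by
  unfold Ray
  rw [supp_bc]

theorem mut_bc (D : A L) (S0 S1 : L) (e0 e1 : (RO ℤ)ˣ) :
    Mut (bc D) S0 S1 (bcU e0) (bcU e1) ↔ Mut D S0 S1 e0 e1 := by
  constructor
  · rintro ⟨h1, h2, h3, h4⟩
    rw [us_bc] at h3 h4
    exact ⟨(ray_bc D S0).mp h1, (ray_bc D S1).mp h2, h3, h4⟩
  · rintro ⟨h1, h2, h3, h4⟩
    refine ⟨(ray_bc D S0).mpr h1, (ray_bc D S1).mpr h2, ?_, ?_⟩
    · rw [us_bc]; exact h3
    · rw [us_bc]; exact h4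

theorem bc_single (a : L) (q : RO ℤ) :
    bc (AddMonoidAlgebra.single a q) = AddMonoidAlgebra.single a (bcR q) := by
  unfold bc bcR
  rw [AddMonoidAlgebra.mapRingHom_single]

theorem cl_bc (k : L →+ ℤ) (S : L) (h : k S = 1) (e : (RO ℤ)ˣ) (D : A L) :
    cl k S h (bcU e) (bc D) = bc (cl k S h e D) := by
  have h1 : D = ∑ a ∈ D.coeff.support, AddMonoidAlgebra.single a (D.coeff a) :=
    (AddMonoidAlgebra.sum_coeff_single D).symm
  rw [h1, map_sum, map_sum, map_sum, map_sum]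
  refine Finset.sum_congr rfl fun a _ => ?_
  rw [bc_single, cl_single, cl_single, bc_single, map_mul, bcU_zpow]
  rfl

theorem dc_bc {P : Type} [Fintype P] [DecidableEq P] {phi : L →+ (P → ℤ)} {S0 S1 : L}
    (X : Dp phi S0 S1) (u0 u1 : (RO ℤ)ˣ) (D : A L) :
    dc X (bcU u0) (bcU u1) (bc D) = bc (dc X u0 u1 D) := by
  unfold dc
  rw [cl_bc, cl_bc]

theorem evL_bc (z : ℂ) (q : RO ℤ) : evL z (bcR q) = evL z q := by
  unfold evL
  rw [bcR_coeff_eq, Finsupp.sum_mapRange_index]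
  · apply Finsupp.sum_congr
    intro n _
    have h1 : (Coef.emb : Eis →+* ℂ) (Int.castRingHom Eis (q.coeff n)) =
        (Coef.emb : ℤ →+* ℂ) (q.coeff n) := by
      rw [← RingHom.comp_apply, emb_comp]
    rw [h1]
  · intro n
    rw [map_zero, zero_mul]

theorem M_bc (q : RO ℤ) : M (bcR q) = M q := by
  unfold M
  simp only [evL_bc]

theorem rlR_bc (q : RO ℤ) : RlR (bcR q) := by
  intro k
  rw [bcR_coeff_eq, Finsupp.mapRange_apply]
  change Coef.conj ((q.coeff k : ℤ) : Eis) = ((q.coeff k : ℤ) : Eis)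
  exact map_intCast _ _

theorem fp_bc {P : Type} [Fintype P] [DecidableEq P] [Module.Free ℤ L] [Module.Finite ℤ L]
    {phi : L →+ (P → ℤ)} {D : A L} (h : FP phi D) (hr : 1 ≤ Module.finrank ℤ L) :
    FP phi (bc D) := by
  refine ⟨dd_bc h.dd hr, ?_, ?_⟩
  · intro i
    rw [supp_bc]
    exact h.fac i
  · intro lam h1 h2 h3
    refine h.all lam ?_ h2 ?_
    · intro a ha
      apply h1
      rw [Finsupp.mem_support_iff] at ha ⊢
      rw [bc_co]
      exact (map_ne_zero_iff bcR bcR_inj).mpr ha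
    · rw [supp_bc] at h3
      exact h3

theorem BcdS_st : BcdS := by
  intro P L _ _ _ _ _ phi D
  refine ⟨fun S => ray_bc D S, fun h hr => fp_bc h hr, fun e S a => vco_bc e S a D,
    fun e S => us_bc e S D, fun S0 S1 e0 e1 => mut_bc D S0 S1 e0 e1,
    fun k S h e => cl_bc k S h e D, fun S0 S1 X u0 u1 => dc_bc X u0 u1 D, ?_, ?_, ?_, ?_⟩
  · intro a
    rw [bc_co, M_bc]
  · intro a
    rw [bc_co]
    exact rlR_bc _
  · intro e
    exact rlR_bc _
  · rw [supp_bc]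

end

end Pool.Agent.B5.H09
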